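import Pool.Agent.TDV.StmtsD

/-!
# Squad TDV (MP_917879_lc), modules CSQ and CME

CSQ: the data of the coding exist. CME: measurability.
-/

set_option autoImplicit false

noncomputable section

namespace Pool.Agent.TDV.H75

open Pool.Agent.TDV

/-- there are arbitrarily large numbers of the required kind -/
def Inf (g : ℕ → Equiv.Perm ℕ) (k a b : ℕ) : Prop :=
  ∀ m, ∃ n ≥ m, n % 2 = a ∧ g k n % 2 = b ∧ g k n ≠ n

theorem bound (g : Equiv.Perm ℕ) (B : ℕ) : ∃ M, ∀ n, M ≤ n → B < g n := by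
  refine ⟨(∑ v ∈ Finset.range (B + 1), g.symm v) + 1, fun n hn => ?_⟩
  by_contra h
  have h1 : g n ≤ B := by omega
  have h2 : g.symm (g n) ≤ ∑ v ∈ Finset.range (B + 1), g.symm v :=
    Finset.single_le_sum (f := fun v => g.symm v) (fun _ _ => Nat.zero_le _)
      (Finset.mem_range.2 (by omega))
  rw [Equiv.symm_apply_apply] at h2
  omega

theorem pick (g : ℕ → Equiv.Perm ℕ) (k a b B : ℕ) :
    ∃ n, Inf g k a b → B < n ∧ B < g k n ∧ n % 2 = a ∧ g k n % 2 = b ∧ g k n ≠ n := by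
  by_cases h : Inf g k a b
  · obtain ⟨M, hM⟩ := bound (g k) B
    obtain ⟨n, hn, h1, h2, h3⟩ := h (max (B + 1) M)
    have h4 : B + 1 ≤ n := le_trans (le_max_left _ _) hn
    have h5 : M ≤ n := le_trans (le_max_right _ _) hn
    exact ⟨n, fun _ => ⟨by omega, hM n h5, h1, h2, h3⟩⟩
  · exact ⟨0, fun h' => absurd h' h⟩

theorem step (g : ℕ → Equiv.Perm ℕ) (j k a b B : ℕ) : ∃ n P B' : ℕ,
    (Inf g k a b → B < n ∧ B < g k n ∧ n % 2 = a ∧ g k n % 2 = b ∧ g k n ≠ n) ∧
    n < P ∧ g k n < P ∧ B < P ∧ P % 2 = j % 2 ∧ P ≤ B' ∧ ∀ k' ≤ j, g k' P ≤ B' := by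
  obtain ⟨n, hn⟩ := pick g k a b B
  obtain ⟨P, hP⟩ : ∃ P, P = 2 * (B + n + g k n + 1) + j % 2 := ⟨_, rfl⟩
  refine ⟨n, P, P + ∑ k' ∈ Finset.range (j + 1), g k' P, hn, by omega, by omega, by omega,
    by omega, by omega, fun k' hk => ?_⟩
  have h2 : g k' P ≤ ∑ k' ∈ Finset.range (j + 1), g k' P :=
    Finset.single_le_sum (f := fun k' => g k' P) (fun _ _ => Nat.zero_le _)
      (Finset.mem_range.2 (by omega))
  omega

/-- the requirement number `j`, first part -/
def rk (j : ℕ) : ℕ := (Nat.unpair (Nat.unpair j).1).1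
/-- the requirement number `j`, second part -/
def ra (j : ℕ) : ℕ := (Nat.unpair (Nat.unpair j).1).2 % 2
/-- the requirement number `j`, third part -/
def rb (j : ℕ) : ℕ := (Nat.unpair (Nat.unpair j).1).2 / 2 % 2

theorem req (k a b m : ℕ) (ha : a < 2) (hb : b < 2) : ∃ j ≥ m, rk j = k ∧ ra j = a ∧ rb j = b := by
  refine ⟨Nat.pair (Nat.pair k (a + 2 * b)) m, Nat.right_le_pair _ _, ?_, ?_, ?_⟩
  · simp [rk]
  · simp only [ra, Nat.unpair_pair]; omega
  · simp only [rb, Nat.unpair_pair]; omega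

open Classical in
theorem csq : CsqStmt := by
  intro g
  choose n P B' h using step g
  let b : ℕ → ℕ := fun j => Nat.rec 0 (fun j B => B' j (rk j) (ra j) (rb j) B) j
  have hb : ∀ j, b (j + 1) = B' j (rk j) (ra j) (rb j) (b j) := fun j => rfl
  clear_value b
  obtain ⟨N, hN⟩ : ∃ N : ℕ → ℕ, N = fun j => n j (rk j) (ra j) (rb j) (b j) := ⟨_, rfl⟩
  obtain ⟨p, hp⟩ : ∃ p : ℕ → ℕ, p = fun j => P j (rk j) (ra j) (rb j) (b j) := ⟨_, rfl⟩
  have H : ∀ j, (Inf g (rk j) (ra j) (rb j) → b j < N j ∧ b j < g (rk j) (N j) ∧ N j % 2 = ra j ∧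
      g (rk j) (N j) % 2 = rb j ∧ g (rk j) (N j) ≠ N j) ∧ N j < p j ∧ g (rk j) (N j) < p j ∧
      b j < p j ∧ p j % 2 = j % 2 ∧ p j ≤ b (j + 1) ∧ ∀ k' ≤ j, g k' (p j) ≤ b (j + 1) := by
    intro j
    rw [hN, hp, hb]
    exact h j (rk j) (ra j) (rb j) (b j)
  clear hN hp hb h
  have hbm : StrictMono b := strictMono_nat_of_lt_succ fun j => by
    have := H j; omega
  have hid : ∀ j, j ≤ b j := hbm.id_le
  have hlt : ∀ i j, i < j → b (i + 1) ≤ b j := fun i j hij => hbm.monotone hij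
  refine ⟨p, fun x => decide (∃ j, Inf g (rk j) (ra j) (rb j) ∧ x = N j), ?_, ?_, ?_, ?_⟩
  · intro i
    exact (H i).2.2.2.2.1
  · intro i
    have h1 := (H i).2.2.2.2.2.1
    have h2 := (H (i + 1)).2.2.2.1
    omega
  · intro i k hk
    have h1 := (H i).2.2.2.2.2.2 k hk
    have h2 := (H (i + 1)).2.2.2.1
    omega
  · intro k a ha b' hb' hinf m
    obtain ⟨j, hj, rfl, rfl, rfl⟩ := req k a b' m ha hb'
    obtain ⟨h1, h2, h3, h4, h5⟩ := (H j).1 hinf
    have h6 := (H j).2.1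
    have h7 := (H j).2.2.1
    have h8 := (H j).2.2.2.2.2.1
    have hnot : ∀ y, b j < y → y < p j → y ∉ Set.range p := by
      rintro y hy1 hy2 ⟨i, rfl⟩
      rcases lt_trichotomy i j with hij | hij | hij
      · have h9 := (H i).2.2.2.2.2.1
        have h10 := hlt i j hij
        omega
      · subst hij
        omega
      · have h9 := (H i).2.2.2.1
        have h10 := hlt j i hij
        omega
    refine ⟨N j, le_trans hj (le_trans (hid j) h1.le), h3, h4, hnot _ h1 h6, hnot _ h2 h7, ?_⟩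
    have hc1 : decide (∃ i, Inf g (rk i) (ra i) (rb i) ∧ N j = N i) = true :=
      decide_eq_true ⟨j, hinf, rfl⟩
    have hc2 : decide (∃ i, Inf g (rk i) (ra i) (rb i) ∧ g (rk j) (N j) = N i) = false := by
      refine decide_eq_false ?_
      rintro ⟨i, hi, he⟩
      rcases lt_trichotomy i j with hij | hij | hij
      · have h9 := (H i).2.1
        have h10 := (H i).2.2.2.2.2.1
        have h11 := hlt i j hij
        omega
      · subst hij
        exact h5 he
      · have h9 := ((H i).1 hi).1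
        have h10 := hlt j i hij
        omega
    show decide (∃ i, Inf g (rk i) (ra i) (rb i) ∧ N j = N i) ≠
      decide (∃ i, Inf g (rk i) (ra i) (rb i) ∧ g (rk j) (N j) = N i)
    rw [hc1, hc2]
    exact Bool.noConfusion

/-! ## CME -/

theorem copy_meas (g : ℕ → Equiv.Perm ℕ) (p : ℕ → ℕ) (c : ℕ → Bool) (r i : ℕ) :
    MeasurableSet {x : ℕ → Bool | Copy g p c r x i} := by
  have h : {x : ℕ → Bool | Copy g p c r x i} = ⋃ m : ℕ, ⋂ n : ℕ,
      {x : ℕ → Bool | n ≥ m → n % 2 = r → n ∉ Set.range p → x (g i n) = c n} := by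
    ext x
    simp only [Copy, Set.mem_setOf_eq, Set.mem_iUnion, Set.mem_iInter]
  rw [h]
  refine MeasurableSet.iUnion fun m => MeasurableSet.iInter fun n => ?_
  by_cases hh : n ≥ m ∧ n % 2 = r ∧ n ∉ Set.range p
  · have h1 : {x : ℕ → Bool | n ≥ m → n % 2 = r → n ∉ Set.range p → x (g i n) = c n} =
        (fun x : ℕ → Bool => x (g i n)) ⁻¹' {c n} := by
      ext x
      simp only [Set.mem_setOf_eq, Set.mem_preimage, Set.mem_singleton_iff]
      exact ⟨fun hx => hx hh.1 hh.2.1 hh.2.2, fun hx _ _ _ => hx⟩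
    rw [h1]
    exact measurable_pi_apply (g i n) (measurableSet_singleton _)
  · have h1 : {x : ℕ → Bool | n ≥ m → n % 2 = r → n ∉ Set.range p → x (g i n) = c n} =
        Set.univ := by
      refine Set.eq_univ_of_forall fun x => ?_
      intro a1 a2 a3
      exact absurd ⟨a1, a2, a3⟩ hh
    rw [h1]
    exact MeasurableSet.univ

theorem rr_meas (g : ℕ → Equiv.Perm ℕ) (p : ℕ → ℕ) (c : ℕ → Bool) (r : ℕ) :
    MeasurableSet {x : ℕ → Bool | RR g p c r x} := by
  have h : {x : ℕ → Bool | RR g p c r x} = ⋃ i : ℕ, {x : ℕ → Bool | Copy g p c r x i} := by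
    ext x
    simp only [RR, Set.mem_setOf_eq, Set.mem_iUnion]
  rw [h]
  exact MeasurableSet.iUnion fun i => copy_meas g p c r i

theorem ix_set (g : ℕ → Equiv.Perm ℕ) (p : ℕ → ℕ) (c : ℕ → Bool) (r i : ℕ) :
    MeasurableSet {x : ℕ → Bool | ix g p c r x = i} := by
  classical
  have h : {x : ℕ → Bool | ix g p c r x = i} =
      ({x : ℕ → Bool | Copy g p c r x i} ∩ ⋂ j : ℕ, ⋂ _ : j < i, {x : ℕ → Bool | Copy g p c r x j}ᶜ) ∪
      ({x : ℕ → Bool | RR g p c r x}ᶜ ∩ {_x : ℕ → Bool | i = 0}) := by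
    ext x
    simp only [Set.mem_setOf_eq, Set.mem_union, Set.mem_inter_iff, Set.mem_iInter,
      Set.mem_compl_iff]
    by_cases hx : ∃ i, Copy g p c r x i
    · have h1 : ix g p c r x = Nat.find hx := by
        rw [ix, dif_pos hx]
      have h2 : RR g p c r x := hx
      rw [h1, Nat.find_eq_iff]
      exact ⟨fun h => Or.inl h, fun h => h.elim id fun h => absurd h2 h.1⟩
    · have h1 : ix g p c r x = 0 := by
        rw [ix, dif_neg hx]
      have h2 : ¬ RR g p c r x := hx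
      rw [h1]
      refine ⟨fun h => Or.inr ⟨h2, h.symm⟩, fun h => h.elim (fun h => absurd ⟨i, h.1⟩ hx) fun h =>
        h.2.symm⟩
  rw [h]
  refine MeasurableSet.union (MeasurableSet.inter (copy_meas g p c r i) ?_)
    (MeasurableSet.inter (rr_meas g p c r).compl (MeasurableSet.const _))
  exact MeasurableSet.iInter fun j => MeasurableSet.iInter fun _ => (copy_meas g p c r j).compl

theorem cme : CmeStmt := by
  intro g p c
  refine ⟨fun r => rr_meas g p c r, ?_⟩
  refine measurable_pi_lambda _ fun j => ?_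
  refine measurable_to_countable' fun v => ?_
  have h : (fun x : ℕ → Bool => DD g p c x j) ⁻¹' {v} = ⋃ i : ℕ,
      ({x : ℕ → Bool | ix g p c (j % 2) x = i} ∩ (fun x : ℕ → Bool => x (g i (p j))) ⁻¹' {v}) := by
    ext x
    simp only [DD, Set.mem_preimage, Set.mem_singleton_iff, Set.mem_iUnion, Set.mem_inter_iff,
      Set.mem_setOf_eq]
    exact ⟨fun h => ⟨_, rfl, h⟩, fun ⟨i, h1, h2⟩ => by rw [h1]; exact h2⟩
  rw [h]
  refine MeasurableSet.iUnion fun i => MeasurableSet.inter (ix_set g p c (j % 2) i) ?_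
  exact measurable_pi_apply (g i (p j)) (measurableSet_singleton _)

end Pool.Agent.TDV.H75
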